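import Mathlib

set_option autoImplicit false

namespace Pool.Agent.Lib.MP_1867c4_co

variable {V : Type}

/-- A broadcast: values at most the diameter and at most the eccentricity of the vertex. -/
def IsBroadcast (G : SimpleGraph V) (f : V → ℕ) : Prop :=
  ∀ v, f v ≤ G.diam ∧ (f v : ℕ∞) ≤ G.eccent v

/-- The vertex u hears f from some broadcasting vertex. -/
def Hears (G : SimpleGraph V) (f : V → ℕ) (u : V) : Prop :=
  ∃ v, 0 < f v ∧ G.dist u v ≤ f v

/-- Every vertex hears f. -/
def Dominating (G : SimpleGraph V) (f : V → ℕ) : Prop := ∀ u, Hears G f u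

/-- Minimal dominating broadcasts. -/
def MinimalDominating (G : SimpleGraph V) (f : V → ℕ) : Prop :=
  IsBroadcast G f ∧ Dominating G f ∧
    ∀ g : V → ℕ, IsBroadcast G g → (∀ v, g v ≤ f v) → g ≠ f → ¬ Dominating G g

open Classical in
/-- Irredundant broadcasts: every broadcasting vertex has a nonempty private boundary. -/
def Irredundant (G : SimpleGraph V) (f : V → ℕ) : Prop :=
  IsBroadcast G f ∧ ∀ v, 0 < f v →
    ∃ u, G.dist u v ≤ f v ∧ ¬ Hears G (fun w => if w = v then f v - 1 else f w) u

/-- The upper broadcast number. -/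
noncomputable def upperBroadcast [Fintype V] (G : SimpleGraph V) : ℕ :=
  sSup {k | ∃ f, MinimalDominating G f ∧ ∑ v, f v = k}

/-- The upper broadcast irredundance number. -/
noncomputable def upperIrredundant [Fintype V] (G : SimpleGraph V) : ℕ :=
  sSup {k | ∃ f, Irredundant G f ∧ ∑ v, f v = k}

end Pool.Agent.Lib.MP_1867c4_co
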