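import Pool.Agent.Lib.MP_1867c4_co.General

set_option autoImplicit false
set_option linter.unusedSectionVars false
set_option linter.unusedVariables false

open Finset

namespace Pool.Agent.Lib.MP_1867c4_co

/-- Columns: side A, side B, and one extra column. -/
abbrev Col (m : ℕ) : Type := Fin (m + 1) ⊕ Option (Fin (m + 1))

/-- Vertices: level and column. -/
abbrev Vx (L m : ℕ) : Type := Fin (L + 1) × Col m

/-- The product of a path with a complete bipartite graph, without the vertical edges of the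
extra column. -/
def fam (L m : ℕ) : SimpleGraph (Vx L m) where
  Adj x y := (x.1.val = y.1.val ∧ x.2.isLeft ≠ y.2.isLeft) ∨
    (x.2 = y.2 ∧ x.2 ≠ Sum.inr none ∧ (x.1.val + 1 = y.1.val ∨ y.1.val + 1 = x.1.val))
  symm := ⟨by
    rintro x y (⟨h1, h2⟩ | ⟨h1, h2, h3⟩)
    · exact Or.inl ⟨h1.symm, h2.symm⟩
    · exact Or.inr ⟨h1.symm, h1 ▸ h2, h3.symm⟩⟩
  loopless := ⟨by
    rintro x (⟨h1, h2⟩ | ⟨h1, h2, h3⟩)
    · exact h2 rfl
    · omega⟩

variable {L m : ℕ}

instance : Nontrivial (Vx L m) := ⟨⟨(0, Sum.inl 0), (0, Sum.inr none), by simp⟩⟩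

theorem adj_h {x y : Vx L m} (h1 : x.1.val = y.1.val) (h2 : x.2.isLeft ≠ y.2.isLeft) :
    (fam L m).Adj x y := Or.inl ⟨h1, h2⟩

theorem reach_col (w : Col m) (hw : w ≠ Sum.inr none) (t : ℕ) (ht : t < L + 1) :
    ∃ q : (fam L m).Walk (0, w) (⟨t, ht⟩, w), q.length = t := by
  induction t with
  | zero => exact ⟨SimpleGraph.Walk.nil, rfl⟩
  | succ t ih =>
    obtain ⟨q, hq⟩ := ih (by omega)
    have ha : (fam L m).Adj (⟨t, by omega⟩, w) (⟨t + 1, ht⟩, w) := Or.inr ⟨rfl, hw, Or.inl rfl⟩
    exact ⟨q.concat ha, by simp [hq]⟩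

theorem fam_connected : (fam L m).Connected := by
  have key : ∀ x : Vx L m, (fam L m).Reachable (0, Sum.inl 0) x := by
    rintro ⟨t, w⟩
    cases w with
    | inl a =>
      obtain ⟨q, -⟩ := reach_col (L := L) (Sum.inl a : Col m) (by simp) t.1 t.2
      have h1 : (fam L m).Adj (0, Sum.inl 0) (0, Sum.inr none) := adj_h rfl (by simp)
      have h2 : (fam L m).Adj (0, Sum.inr none) (0, Sum.inl a) := adj_h rfl (by simp)
      exact h1.reachable.trans (h2.reachable.trans ⟨q⟩)
    | inr b =>
      obtain ⟨q, -⟩ := reach_col (L := L) (Sum.inl 0 : Col m) (by simp) t.1 t.2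
      have h1 : (fam L m).Adj (t, Sum.inl 0) (t, Sum.inr b) := adj_h rfl (by simp)
      exact SimpleGraph.Reachable.trans ⟨q⟩ h1.reachable
  exact ⟨fun x y => (key x).symm.trans (key y)⟩

theorem fam_bipartite : (fam L m).IsBipartite := by
  refine ⟨SimpleGraph.Coloring.mk
    (fun x => ⟨(x.1.val + if x.2.isLeft then 1 else 0) % 2, Nat.mod_lt _ (by norm_num)⟩) ?_⟩
  rintro x y (⟨h1, h2⟩ | ⟨h1, h2, h3⟩) h
  · have h4 := congrArg Fin.val h
    simp only at h4
    revert h2 h4
    cases x.2.isLeft <;> cases y.2.isLeft <;> simp <;> omega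
  · have h4 := congrArg Fin.val h
    simp only [h1] at h4
    omega

theorem dist_level_ge (x y : Vx L m) : y.1.val ≤ x.1.val + (fam L m).dist x y := by
  apply lipschitz_le fam_connected (fun z : Vx L m => z.1.val)
  rintro a b (⟨h1, h2⟩ | ⟨h1, h2, h3⟩) <;> omega

theorem dist_level_gt (x y : Vx L m) (h : y.2 ≠ x.2) :
    y.1.val + 1 ≤ x.1.val + (fam L m).dist x y := by
  classical
  have := lipschitz_le (fam_connected (L := L) (m := m))
    (fun z : Vx L m => z.1.val + if z.2 = x.2 then 0 else 1) ?_ x y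
  · simpa [h] using this
  · rintro a b (⟨h1, h2⟩ | ⟨h1, h2, h3⟩)
    · split_ifs <;> omega
    · simp only [h1]
      omega

theorem fam_irr_lower : 2 * (m + 1) * L ≤ upperIrredundant (fam L m) := by
  classical
  let f : Vx L m → ℕ := fun x => if x.1 = 0 ∧ x.2 ≠ Sum.inr none then L else 0
  have hf : Irredundant (fam L m) f := by
    refine ⟨isBroadcast_of_dist fam_connected fun v => ⟨(Fin.last L, v.2), ?_⟩, fun v hv => ?_⟩
    · simp only [f]
      split_ifs with h
      · have := dist_level_ge v (Fin.last L, v.2)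
        simp only [Fin.val_last, h.1, Fin.val_zero] at this
        omega
      · omega
    · have hv' : v.1 = 0 ∧ v.2 ≠ Sum.inr none := by
        by_contra h
        simp [f, h] at hv
      have hfv : f v = L := by simp only [f, if_pos hv']
      refine ⟨(Fin.last L, v.2), ?_, ?_⟩
      · obtain ⟨q, hq⟩ := reach_col (L := L) v.2 hv'.2 L (by omega)
        have h1 := SimpleGraph.dist_le q
        have h2 : v = (0, v.2) := Prod.ext hv'.1 rfl
        rw [hfv, SimpleGraph.dist_comm]
        rw [hq, ← h2] at h1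
        exact h1
      · rintro ⟨w, hw1, hw2⟩
        rw [SimpleGraph.dist_comm] at hw2
        by_cases hwv : w = v
        · subst hwv
          have := dist_level_ge w (Fin.last L, w.2)
          simp only [if_true, hfv] at hw1 hw2
          simp only [Fin.val_last, hv'.1, Fin.val_zero] at this
          omega
        · simp only [if_neg hwv] at hw1 hw2
          have hw' : w.1 = 0 ∧ w.2 ≠ Sum.inr none := by
            by_contra h
            simp [f, h] at hw1
          have hfw : f w = L := by simp only [f, if_pos hw']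
          have h3 : v.2 ≠ w.2 := fun h => hwv (Prod.ext (hw'.1.trans hv'.1.symm) h.symm)
          have := dist_level_gt w (Fin.last L, v.2) h3
          simp only [Fin.val_last, hw'.1, Fin.val_zero] at this
          omega
  refine le_trans ?_ (le_csSup (bdd_irr fam_connected) ⟨f, hf, rfl⟩)
  rw [Fintype.sum_prod_type, Fin.sum_univ_succ, Fintype.sum_sum_type, Fintype.sum_option]
  simp [f]
  ring_nf
  omega

/-- Two paths on each side with four different owners cannot pass through one level. -/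
theorem no_four {f : Vx L m → ℕ} {p : Vx L m → Vx L m} (hp : Priv (fam L m) f p)
    (hdom : Dominating (fam L m) f) (a1 a2 b1 b2 : Fin (m + 1)) (v1 v2 w1 w2 : Vx L m)
    (h12 : v1 ≠ v2) (h12' : w1 ≠ w2) (e11 : v1 ≠ w1) (e12 : v1 ≠ w2) (e21 : v2 ≠ w1)
    (e22 : v2 ≠ w2) (r : ℕ) : ∀ t : Fin (L + 1),
    Own (fam L m) f p v1 (t, Sum.inl a1) → Own (fam L m) f p v2 (t, Sum.inl a2) →
    Own (fam L m) f p w1 (t, Sum.inr (some b1)) → Own (fam L m) f p w2 (t, Sum.inr (some b2)) →
    (t, Sum.inl a1) ≠ v1 → (t, Sum.inl a2) ≠ v2 → (t, Sum.inr (some b1)) ≠ w1 →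
    (t, Sum.inr (some b2)) ≠ w2 → (fam L m).dist (t, Sum.inl a1) (p v1) = r → False := by
  have hG := fam_connected (L := L) (m := m)
  induction r with
  | zero =>
    intro t o1 o2 o3 o4 n1 n2 n3 n4 hr
    have r3 := (hp.own_adj hG o1 o3 e11 (adj_h rfl (by simp))).1
    have r4 := (hp.own_adj hG o1 o4 e12 (adj_h rfl (by simp))).1
    have r2 := (hp.own_adj hG o2 o3 e21 (adj_h rfl (by simp))).1
    have p1 : p v1 = (t, Sum.inl a1) := (hG.dist_eq_zero_iff.1 hr).symm
    have p2 : p v2 = (t, Sum.inl a2) := (hG.dist_eq_zero_iff.1 (by omega)).symm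
    have p3 : p w1 = (t, Sum.inr (some b1)) := (hG.dist_eq_zero_iff.1 (by omega)).symm
    have p4 : p w2 = (t, Sum.inr (some b2)) := (hG.dist_eq_zero_iff.1 (by omega)).symm
    obtain ⟨u, hu1, hu2⟩ := hdom (t, Sum.inr none)
    have kill : ∀ v, 0 < f v → (fam L m).dist u (p v) ≤ f u → u = v := by
      intro v hv h
      by_contra hc
      have := hp.other v u hv hu1 hc
      omega
    rcases Nat.eq_zero_or_pos ((fam L m).dist (t, Sum.inr none) u) with h0 | h0
    · have hu : (t, Sum.inr none) = u := hG.dist_eq_zero_iff.1 h0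
      have d : ∀ a, (fam L m).dist u (t, Sum.inl a) = 1 := fun a =>
        SimpleGraph.dist_eq_one_iff_adj.2 (hu ▸ adj_h rfl (by simp))
      have k1 := kill v1 o1.1 (by rw [p1, d]; omega)
      have k2 := kill v2 o2.1 (by rw [p2, d]; omega)
      exact h12 (k1.symm.trans k2)
    · obtain ⟨x, hx1, hx2⟩ := exists_step hG (show (fam L m).dist (t, Sum.inr none) u =
        ((fam L m).dist (t, Sum.inr none) u - 1) + 1 by omega)
      rw [SimpleGraph.dist_comm] at hx2
      have d : ∀ b, (fam L m).dist u (t, Sum.inr b) ≤ f u := by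
        intro b
        have ha : (fam L m).Adj x (t, Sum.inr b) := by
          rcases hx1 with ⟨h1, h2⟩ | ⟨h1, h2, h3⟩
          · exact adj_h h1.symm (by simpa using h2)
          · exact absurd rfl h2
        have := dist_adj_le hG u ha
        omega
      have k1 := kill w1 o3.1 (by rw [p3]; exact d _)
      have k2 := kill w2 o4.1 (by rw [p4]; exact d _)
      exact h12' (k1.symm.trans k2)
  | succ r ih =>
    intro t o1 o2 o3 o4 n1 n2 n3 n4 hr
    have r3 := (hp.own_adj hG o1 o3 e11 (adj_h rfl (by simp))).1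
    have r4 := (hp.own_adj hG o1 o4 e12 (adj_h rfl (by simp))).1
    have r2 := (hp.own_adj hG o2 o3 e21 (adj_h rfl (by simp))).1
    -- a neighbour with the same owner and another distance is a vertical neighbour
    have vert : ∀ (c c' : Col m) (v v' : Vx L m) (x : Vx L m), c.isLeft = c'.isLeft → v ≠ v' →
        Own (fam L m) f p v' (t, c') → (fam L m).dist (t, c') (p v') = r + 1 →
        (fam L m).Adj (t, c) x → Own (fam L m) f p v x → (fam L m).dist x (p v) ≠ r + 1 →
        ∃ s : Fin (L + 1), x = (s, c) ∧ (t.val + 1 = s.val ∨ s.val + 1 = t.val) := by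
      intro c c' v v' x hc hv o' hr' ha o hne
      rcases ha with ⟨h1, h2⟩ | ⟨h1, h2, h3⟩
      · exfalso
        have := (hp.own_adj hG o o' hv (adj_h h1.symm (by rw [← hc]; exact h2.symm))).1
        omega
      · exact ⟨x.1, Prod.ext rfl h1.symm, h3⟩
    obtain ⟨⟨x1, s1, s2, s3, s4⟩, ⟨x1', s5, s6, s7⟩⟩ := hp.own_succ hG o1 n1 hr
    obtain ⟨⟨x2, u1, u2, u3, u4⟩, -⟩ := hp.own_succ hG o2 n2 (r := r) (by omega)
    obtain ⟨⟨y1, k1, k2, k3, k4⟩, ⟨y1', k5, k6, k7⟩⟩ := hp.own_succ hG o3 n3 (r := r) (by omega)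
    obtain ⟨⟨y2, l1, l2, l3, l4⟩, -⟩ := hp.own_succ hG o4 n4 (r := r) (by omega)
    obtain ⟨t1, rfl, q1⟩ := vert (Sum.inl a1) (Sum.inl a2) v1 v2 x1 rfl h12 o2 (by omega) s1 s2 (by omega)
    obtain ⟨t1', rfl, q1'⟩ := vert (Sum.inl a1) (Sum.inl a2) v1 v2 x1' rfl h12 o2 (by omega) s5 s6
      (by omega)
    obtain ⟨t2, rfl, q2⟩ := vert (Sum.inl a2) (Sum.inl a1) v2 v1 x2 rfl h12.symm o1 hr u1 u2 (by omega)
    obtain ⟨t3, rfl, q3⟩ := vert (Sum.inr (some b1)) (Sum.inr (some b2)) w1 w2 y1 rfl h12' o4 (by omega) k1 k2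
      (by omega)
    obtain ⟨t3', rfl, q3'⟩ := vert (Sum.inr (some b1)) (Sum.inr (some b2)) w1 w2 y1' rfl h12' o4 (by omega) k5 k6
      (by omega)
    obtain ⟨t4, rfl, q4⟩ := vert (Sum.inr (some b2)) (Sum.inr (some b1)) w2 w1 y2 rfl h12'.symm o3 (by omega) l1 l2
      (by omega)
    have d1 : t1.val ≠ t1'.val := by
      intro h
      rw [Fin.ext h] at s4
      omega
    have d3 : t3.val ≠ t3'.val := by
      intro h
      rw [Fin.ext h] at k4
      omega
    have c3 : t3.val ≠ t1'.val := by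
      intro h
      have := (hp.own_adj hG s6 k2 e11 (adj_h h.symm (by simp))).1
      omega
    have c4 : t4.val ≠ t1'.val := by
      intro h
      have := (hp.own_adj hG s6 l2 e12 (adj_h h.symm (by simp))).1
      omega
    have c2 : t2.val ≠ t3'.val := by
      intro h
      have := (hp.own_adj hG u2 k6 e21 (adj_h h (by simp))).1
      omega
    have g3 : t3 = t1 := Fin.ext (by omega)
    have g4 : t4 = t1 := Fin.ext (by omega)
    have g2 : t2 = t1 := Fin.ext (by omega)
    subst g3 g4 g2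
    exact ih _ s2 u2 k2 l2 s3 u3 k3 l3 s4

theorem dist_same_side (t : Fin (L + 1)) (c c' : Col m) (h : c.isLeft = c'.isLeft) :
    (fam L m).dist (t, c) (t, c') ≤ 2 := by
  have hG := fam_connected (L := L) (m := m)
  obtain ⟨z, hz⟩ : ∃ z : Col m, z.isLeft ≠ c.isLeft := by
    cases c with
    | inl a => exact ⟨Sum.inr none, by simp⟩
    | inr b => exact ⟨Sum.inl 0, by simp⟩
  have h1 : (fam L m).Adj (t, c) (t, z) := adj_h rfl hz.symm
  have h2 : (fam L m).Adj (t, z) (t, c') := adj_h rfl (h ▸ hz)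
  have h3 := dist_adj_le hG (t, c) h2
  rw [SimpleGraph.dist_eq_one_iff_adj.2 h1] at h3
  exact h3

theorem exists_new_owner {V : Type} [Fintype V] [DecidableEq V] {G : SimpleGraph V}
    (hG : G.Connected) {f : V → ℕ} {p : V → V} {c : V → ℕ → V} (hc : Charge G f p c)
    (S : Finset (Σ _ : V, ℕ)) (hS : S ⊆ pairs f)
    (hd : ∀ a ∈ S, ∀ b ∈ S, G.dist (c a.1 a.2) (c b.1 b.2) ≤ 2) (T : Finset V)
    (hT : 5 * T.card < S.card) : ∃ a ∈ S, a.1 ∉ T := by
  by_contra hcon
  push Not at hcon
  have h1 : ∀ v ∈ T, (S.filter fun a => a.1 = v).card ≤ 5 := by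
    intro v _
    rcases (S.filter fun a => a.1 = v).eq_empty_or_nonempty with h | ⟨a0, ha0⟩
    · simp [h]
    · obtain ⟨ha1, ha2⟩ := mem_filter.1 ha0
      have : (S.filter fun a => a.1 = v).card ≤ (Icc (a0.2 - 2) (a0.2 + 2)).card := by
        apply Finset.card_le_card_of_injOn (fun a : (Σ _ : V, ℕ) => a.2)
        · intro a ha
          obtain ⟨hb1, hb2⟩ := mem_filter.1 ha
          have l1 := hc.level _ _ (mem_pairs.1 (hS ha1))
          have l2 := hc.level _ _ (mem_pairs.1 (hS hb1))
          have t1 := hG.dist_triangle (u := c a0.1 a0.2) (v := c a.1 a.2) (w := p v)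
          have t2 := hG.dist_triangle (u := c a.1 a.2) (v := c a0.1 a0.2) (w := p v)
          have d1 := hd a0 ha1 a hb1
          have d2 := hd a hb1 a0 ha1
          have e1 : p a0.1 = p v := by rw [ha2]
          have e2 : p a.1 = p v := by rw [hb2]
          rw [e1] at l1
          rw [e2] at l2
          simp only [coe_Icc, Set.mem_Icc]
          omega
        · intro a ha b hb h
          exact Sigma.ext ((mem_filter.1 ha).2.trans (mem_filter.1 hb).2.symm) (heq_of_eq h)
      rw [Nat.card_Icc] at this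
      omega
  have h2 := Finset.card_eq_sum_card_fiberwise (f := fun a : (Σ _ : V, ℕ) => a.1) (s := S) (t := T)
    (fun a ha => hcon a ha)
  have h3 := Finset.sum_le_card_nsmul T _ 5 h1
  simp only [smul_eq_mul] at h3
  omega

theorem fam_min_upper {f : Vx L m → ℕ} (hf : MinimalDominating (fam L m) f) :
    ∑ v, f v ≤ (L + 1) * (m + 17) := by
  classical
  have hG := fam_connected (L := L) (m := m)
  obtain ⟨p, hp⟩ := exists_priv hG hf.irredundant
  obtain ⟨c, hc⟩ := hp.exists_charge hG
  rw [← card_pairs, Finset.card_eq_sum_card_fiberwise (f := fun a : (Σ _ : Vx L m, ℕ) =>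
    (c a.1 a.2).1) (t := univ) (fun _ _ => mem_univ _)]
  have key : ∀ t ∈ (univ : Finset (Fin (L + 1))),
      ((pairs f).filter fun a => (c a.1 a.2).1 = t).card ≤ m + 17 := by
    intro t _
    set SA := (pairs f).filter fun a => ∃ i, c a.1 a.2 = (t, Sum.inl i) with hSA
    set SB := (pairs f).filter fun a => ∃ i, c a.1 a.2 = (t, Sum.inr (some i)) with hSB
    set SZ := (pairs f).filter fun a => c a.1 a.2 = (t, Sum.inr none) with hSZ
    have hsub : ((pairs f).filter fun a => (c a.1 a.2).1 = t) ⊆ SA ∪ SB ∪ SZ := by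
      intro a ha
      obtain ⟨h1, h2⟩ := mem_filter.1 ha
      simp only [mem_union, hSA, hSB, hSZ, mem_filter, h1, true_and]
      rcases h : (c a.1 a.2).2 with i | (_ | i)
      · exact Or.inl (Or.inl ⟨i, Prod.ext h2 h⟩)
      · exact Or.inr (Prod.ext h2 h)
      · exact Or.inl (Or.inr ⟨i, Prod.ext h2 h⟩)
    have cA : SA.card ≤ m + 1 := by
      have := hc.card_le hG hp SA (filter_subset _ _)
        (univ.image fun i : Fin (m + 1) => ((t, Sum.inl i) : Vx L m)) (fun a ha => by
          obtain ⟨i, hi⟩ := (mem_filter.1 ha).2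
          exact mem_image.2 ⟨i, mem_univ _, hi.symm⟩)
      exact this.trans (card_image_le.trans (by simp))
    have cB : SB.card ≤ m + 1 := by
      have := hc.card_le hG hp SB (filter_subset _ _)
        (univ.image fun i : Fin (m + 1) => ((t, Sum.inr (some i)) : Vx L m)) (fun a ha => by
          obtain ⟨i, hi⟩ := (mem_filter.1 ha).2
          exact mem_image.2 ⟨i, mem_univ _, hi.symm⟩)
      exact this.trans (card_image_le.trans (by simp))
    have cZ : SZ.card ≤ 1 := by
      have := hc.card_le hG hp SZ (filter_subset _ _) {((t, Sum.inr none) : Vx L m)}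
        (fun a ha => mem_singleton.2 (mem_filter.1 ha).2)
      simpa using this
    have small : SA.card ≤ 15 ∨ SB.card ≤ 15 := by
      by_contra hcon
      push Not at hcon
      have dA : ∀ a ∈ SA, ∀ b ∈ SA, (fam L m).dist (c a.1 a.2) (c b.1 b.2) ≤ 2 := by
        intro a ha b hb
        obtain ⟨i, hi⟩ := (mem_filter.1 ha).2
        obtain ⟨j, hj⟩ := (mem_filter.1 hb).2
        rw [hi, hj]
        exact dist_same_side t _ _ rfl
      have dB : ∀ a ∈ SB, ∀ b ∈ SB, (fam L m).dist (c a.1 a.2) (c b.1 b.2) ≤ 2 := by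
        intro a ha b hb
        obtain ⟨i, hi⟩ := (mem_filter.1 ha).2
        obtain ⟨j, hj⟩ := (mem_filter.1 hb).2
        rw [hi, hj]
        exact dist_same_side t _ _ rfl
      obtain ⟨x1, hx1, -⟩ := exists_new_owner hG hc SA (filter_subset _ _) dA ∅
        (by simp only [card_empty]; omega)
      obtain ⟨x2, hx2, n2⟩ := exists_new_owner hG hc SA (filter_subset _ _) dA {x1.1}
        (by simp only [card_singleton]; omega)
      obtain ⟨y1, hy1, n3⟩ := exists_new_owner hG hc SB (filter_subset _ _) dB {x1.1, x2.1}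
        (by have := card_le_two (a := x1.1) (b := x2.1); omega)
      obtain ⟨y2, hy2, n4⟩ := exists_new_owner hG hc SB (filter_subset _ _) dB {x1.1, x2.1, y1.1}
        (by have := card_le_three (a := x1.1) (b := x2.1) (c := y1.1); omega)
      simp only [mem_insert, mem_singleton, not_or] at n2 n3 n4
      obtain ⟨m1, a1, ha1⟩ := mem_filter.1 hx1
      obtain ⟨m2, a2, ha2⟩ := mem_filter.1 hx2
      obtain ⟨m3, b1, hb1⟩ := mem_filter.1 hy1
      obtain ⟨m4, b2, hb2⟩ := mem_filter.1 hy2
      rw [mem_pairs] at m1 m2 m3 m4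
      have o1 := hc.own _ _ m1
      have o2 := hc.own _ _ m2
      have o3 := hc.own _ _ m3
      have o4 := hc.own _ _ m4
      have notself : ∀ a b : (Σ _ : Vx L m, ℕ), a.2 < f a.1 → b.2 < f b.1 → a.1 ≠ b.1 →
          (fam L m).Adj (c a.1 a.2) (c b.1 b.2) → c a.1 a.2 ≠ a.1 := by
        intro a b ha hb hne hadj h
        have h1 := (hp.own_adj hG (hc.own _ _ ha) (hc.own _ _ hb) hne hadj).2
        obtain ⟨h2, h3⟩ := hc.self _ _ ha h
        rw [h, h3] at h1
        simp only [SimpleGraph.dist_self] at h1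
        omega
      have adj : ∀ i j, (fam L m).Adj (t, Sum.inl i) (t, Sum.inr (some j)) :=
        fun i j => adj_h rfl (by simp)
      have z1 := notself x1 y1 m1 m3 (Ne.symm n3.1) (by rw [ha1, hb1]; exact adj _ _)
      have z2 := notself x2 y1 m2 m3 (Ne.symm n3.2) (by rw [ha2, hb1]; exact adj _ _)
      have z3 := notself y1 x1 m3 m1 n3.1 (by rw [ha1, hb1]; exact (adj _ _).symm)
      have z4 := notself y2 x1 m4 m1 n4.1 (by rw [ha1, hb2]; exact (adj _ _).symm)
      rw [ha1] at o1 z1
      rw [ha2] at o2 z2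
      rw [hb1] at o3 z3
      rw [hb2] at o4 z4
      exact no_four hp hf.2.1 a1 a2 b1 b2 x1.1 x2.1 y1.1 y2.1 (Ne.symm n2) (Ne.symm n4.2.2)
        (Ne.symm n3.1) (Ne.symm n4.1) (Ne.symm n3.2) (Ne.symm n4.2.1) _ t o1 o2 o3 o4 z1 z2 z3 z4
        rfl
    have h1 := card_le_card hsub
    have h2 := card_union_le (SA ∪ SB) SZ
    have h3 := card_union_le SA SB
    omega
  have := Finset.sum_le_card_nsmul _ _ _ key
  simpa using this

theorem fam_upperBroadcast_le : upperBroadcast (fam L m) ≤ (L + 1) * (m + 17) := by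
  apply csSup_le'
  rintro k ⟨f, hf, rfl⟩
  exact fam_min_upper hf

end Pool.Agent.Lib.MP_1867c4_co
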