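import Pool.Agent.Lib.MP_1867c4_co.Defs

set_option autoImplicit false
set_option linter.unusedSectionVars false
set_option linter.unusedVariables false

open Finset

namespace Pool.Agent.Lib.MP_1867c4_co

variable {V : Type} {G : SimpleGraph V}

theorem dist_adj_le (hG : G.Connected) (u : V) {x y : V} (h : G.Adj x y) :
    G.dist u y ≤ G.dist u x + 1 := by
  have h1 := hG.dist_triangle (u := u) (v := x) (w := y)
  rw [SimpleGraph.dist_eq_one_iff_adj.2 h] at h1
  exact h1

theorem exists_step (hG : G.Connected) {x p : V} {r : ℕ} (h : G.dist x p = r + 1) :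
    ∃ x', G.Adj x x' ∧ G.dist x' p = r := by
  obtain ⟨q, hq⟩ := hG.exists_walk_length_eq_dist x p
  cases q with
  | nil => simp at h
  | cons ha q =>
    refine ⟨_, ha, le_antisymm ?_ ?_⟩
    · have := SimpleGraph.dist_le q
      simp only [SimpleGraph.Walk.length_cons] at hq
      omega
    · have h1 := dist_adj_le hG p ha.symm
      rw [SimpleGraph.dist_comm (u := p), SimpleGraph.dist_comm (u := p)] at h1
      omega

theorem exists_point (hG : G.Connected) (v p : V) (j : ℕ) (hj : j ≤ G.dist v p) :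
    ∃ x, G.dist x p = j ∧ G.dist v x + j = G.dist v p := by
  obtain ⟨i, hi⟩ := Nat.exists_eq_add_of_le hj
  induction i generalizing j with
  | zero => exact ⟨v, by omega, by simp; omega⟩
  | succ i ih =>
    obtain ⟨x, h1, h2⟩ := ih (j + 1) (by omega) (by omega)
    obtain ⟨x', ha, h3⟩ := exists_step hG h1
    refine ⟨x', h3, le_antisymm ?_ ?_⟩
    · have := dist_adj_le hG v ha
      omega
    · have := hG.dist_triangle (u := v) (v := x') (w := p)
      omega

theorem lipschitz_le (hG : G.Connected) (φ : V → ℕ) (h : ∀ x y, G.Adj x y → φ y ≤ φ x + 1)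
    (x y : V) : φ y ≤ φ x + G.dist x y := by
  obtain ⟨q, hq⟩ := hG.exists_walk_length_eq_dist x y
  rw [← hq]
  clear hq
  induction q with
  | nil => simp
  | cons ha q ih =>
    have := h _ _ ha
    simp only [SimpleGraph.Walk.length_cons]
    omega

/-- A choice of private vertices. -/
structure Priv (G : SimpleGraph V) (f : V → ℕ) (p : V → V) : Prop where
  other : ∀ v w, 0 < f v → 0 < f w → w ≠ v → f w < G.dist w (p v)
  own : ∀ v, 0 < f v → G.dist v (p v) = f v ∨ (f v = 1 ∧ p v = v)

theorem exists_priv (hG : G.Connected) {f : V → ℕ} (hf : Irredundant G f) :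
    ∃ p, Priv G f p := by
  classical
  have h : ∀ v, ∃ u, 0 < f v → ((∀ w, 0 < f w → w ≠ v → f w < G.dist w u) ∧
      (G.dist v u = f v ∨ (f v = 1 ∧ u = v))) := by
    intro v
    by_cases hv : 0 < f v
    · obtain ⟨u, h1, h2⟩ := hf.2 v hv
      refine ⟨u, fun _ => ⟨fun w hw hwv => ?_, ?_⟩⟩
      · by_contra hc
        apply h2
        refine ⟨w, ?_, ?_⟩
        · simpa [hwv] using hw
        · rw [SimpleGraph.dist_comm]
          simpa [hwv] using hc
      · rw [SimpleGraph.dist_comm] at h1
        by_cases h3 : G.dist v u = f v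
        · exact Or.inl h3
        · right
          have h4 : ¬ (0 < f v - 1) := by
            intro h4
            apply h2
            refine ⟨v, by simpa using h4, ?_⟩
            rw [SimpleGraph.dist_comm]
            simp only [if_true]
            omega
          have h5 : G.dist v u = 0 := by omega
          exact ⟨by omega, (hG.dist_eq_zero_iff.1 h5).symm⟩
    · exact ⟨v, fun h => absurd h hv⟩
  choose p hp using h
  exact ⟨p, fun v w hv hw h => (hp v hv).1 w hw h, fun v hv => (hp v hv).2⟩

/-- The vertex x lies between the broadcasting vertex v and its private vertex. -/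
def Own (G : SimpleGraph V) (f : V → ℕ) (p : V → V) (v x : V) : Prop :=
  0 < f v ∧ G.dist v x + G.dist x (p v) ≤ f v

theorem Priv.own_unique (hG : G.Connected) {f : V → ℕ} {p : V → V} (hp : Priv G f p) {v w x : V}
    (hv : Own G f p v x) (hw : Own G f p w x) : v = w := by
  by_contra h
  have h1 := hp.other v w hv.1 hw.1 (Ne.symm h)
  have h2 := hp.other w v hw.1 hv.1 h
  have h3 := hG.dist_triangle (u := w) (v := x) (w := p v)
  have h4 := hG.dist_triangle (u := v) (v := x) (w := p w)
  have := hv.2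
  have := hw.2
  omega

theorem Priv.own_adj (hG : G.Connected) {f : V → ℕ} {p : V → V} (hp : Priv G f p) {v w x y : V}
    (hv : Own G f p v x) (hw : Own G f p w y) (h : v ≠ w) (ha : G.Adj x y) :
    G.dist x (p v) = G.dist y (p w) ∧ G.dist v x + G.dist x (p v) = f v := by
  have h1 := hp.other v w hv.1 hw.1 (Ne.symm h)
  have h2 := hp.other w v hw.1 hv.1 h
  have h3 := hG.dist_triangle (u := w) (v := x) (w := p v)
  have h4 := hG.dist_triangle (u := v) (v := y) (w := p w)
  have h5 := dist_adj_le hG v ha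
  have h6 := dist_adj_le hG w ha.symm
  have := hv.2
  have := hw.2
  omega

theorem Priv.own_succ (hG : G.Connected) {f : V → ℕ} {p : V → V} (hp : Priv G f p) {v x : V}
    (hv : Own G f p v x) (hx : x ≠ v) {r : ℕ} (hr : G.dist x (p v) = r + 1) :
    (∃ x', G.Adj x x' ∧ Own G f p v x' ∧ x' ≠ v ∧ G.dist x' (p v) = r) ∧
    (∃ x', G.Adj x x' ∧ Own G f p v x' ∧ G.dist x' (p v) = r + 2) := by
  have h0 : 0 < G.dist v x := hG.pos_dist_of_ne hx.symm
  have h1 := hv.2
  have h2 : G.dist v (p v) = f v := by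
    rcases hp.own v hv.1 with h | h
    · exact h
    · omega
  constructor
  · obtain ⟨x', ha, h3⟩ := exists_step hG hr
    have h4 := dist_adj_le hG v ha
    refine ⟨x', ha, ⟨hv.1, by omega⟩, ?_, h3⟩
    rintro rfl
    omega
  · obtain ⟨k, hk⟩ : ∃ k, G.dist x v = k + 1 := ⟨G.dist v x - 1, by
      rw [SimpleGraph.dist_comm]; omega⟩
    obtain ⟨x', ha, h3⟩ := exists_step hG hk
    rw [SimpleGraph.dist_comm] at h3 hk
    have h4 := dist_adj_le hG (p v) ha
    rw [SimpleGraph.dist_comm (u := p v), SimpleGraph.dist_comm (u := p v)] at h4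
    have h5 := hG.dist_triangle (u := v) (v := x') (w := p v)
    exact ⟨x', ha, ⟨hv.1, by omega⟩, by omega⟩

/-- The vertices that pay for the cost of the broadcast. -/
structure Charge (G : SimpleGraph V) (f : V → ℕ) (p : V → V) (c : V → ℕ → V) : Prop where
  own : ∀ v j, j < f v → Own G f p v (c v j)
  level : ∀ v j, j < f v → G.dist (c v j) (p v) = j
  self : ∀ v j, j < f v → c v j = v → f v = 1 ∧ p v = v

theorem Priv.exists_charge (hG : G.Connected) {f : V → ℕ} {p : V → V} (hp : Priv G f p) :
    ∃ c, Charge G f p c := by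
  have h : ∀ v j, ∃ x, j < f v → (Own G f p v x ∧ G.dist x (p v) = j ∧
      (x = v → f v = 1 ∧ p v = v)) := by
    intro v j
    by_cases hj : j < f v
    · rcases hp.own v (by omega) with h | h
      · obtain ⟨x, h1, h2⟩ := exists_point hG v (p v) j (by omega)
        refine ⟨x, fun _ => ⟨⟨by omega, by omega⟩, h1, ?_⟩⟩
        rintro rfl
        omega
      · refine ⟨v, fun _ => ⟨⟨by omega, ?_⟩, ?_, fun _ => h⟩⟩
        · simp [h.2]
        · rw [h.2]; simp; omega
    · exact ⟨v, fun h => absurd h hj⟩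
  choose c hc using h
  exact ⟨c, fun v j h => (hc v j h).1, fun v j h => (hc v j h).2.1, fun v j h => (hc v j h).2.2⟩

theorem Charge.inj (hG : G.Connected) {f : V → ℕ} {p : V → V} (hp : Priv G f p) {c : V → ℕ → V}
    (hc : Charge G f p c) {v w : V} {i j : ℕ} (hi : i < f v) (hj : j < f w)
    (h : c v i = c w j) : v = w ∧ i = j := by
  have h1 := hc.own v i hi
  have h2 := hc.own w j hj
  rw [h] at h1
  have h3 := hp.own_unique hG h1 h2
  subst h3
  have h4 := hc.level v i hi
  have h5 := hc.level v j hj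
  rw [h] at h4
  exact ⟨rfl, by omega⟩

/-- The set of charging pairs. -/
def pairs [Fintype V] (f : V → ℕ) : Finset (Σ _ : V, ℕ) := univ.sigma fun v => range (f v)

theorem card_pairs [Fintype V] (f : V → ℕ) : (pairs f).card = ∑ v, f v := by
  simp [pairs]

theorem mem_pairs [Fintype V] {f : V → ℕ} {a : Σ _ : V, ℕ} : a ∈ pairs f ↔ a.2 < f a.1 := by
  simp [pairs]

theorem Charge.card_le (hG : G.Connected) [Fintype V] {f : V → ℕ} {p : V → V} (hp : Priv G f p)
    {c : V → ℕ → V} (hc : Charge G f p c) (S : Finset (Σ _ : V, ℕ)) (hS : S ⊆ pairs f)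
    (T : Finset V) (hT : ∀ a ∈ S, c a.1 a.2 ∈ T) : S.card ≤ T.card := by
  apply Finset.card_le_card_of_injOn (fun a : (Σ _ : V, ℕ) => c a.1 a.2) (fun a ha => hT a ha)
  intro a ha b hb h
  obtain ⟨h1, h2⟩ := hc.inj hG hp (mem_pairs.1 (hS ha)) (mem_pairs.1 (hS hb)) h
  exact Sigma.ext h1 (heq_of_eq h2)

theorem exists_adj (hG : G.Connected) [Nontrivial V] (v : V) : ∃ u, G.Adj v u := by
  obtain ⟨w, hw⟩ := exists_ne v
  have h0 : 0 < G.dist v w := hG.pos_dist_of_ne hw.symm
  obtain ⟨u, hu, -⟩ := exists_step hG (show G.dist v w = (G.dist v w - 1) + 1 by omega)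
  exact ⟨u, hu⟩

theorem cost_lt (hG : G.Connected) [Fintype V] [Nontrivial V] {f : V → ℕ}
    (hf : Irredundant G f) : ∑ v, f v < Fintype.card V := by
  classical
  obtain ⟨p, hp⟩ := exists_priv hG hf
  obtain ⟨c, hc⟩ := hp.exists_charge hG
  have key : ∃ z, ∀ a ∈ pairs f, c a.1 a.2 ≠ z := by
    by_contra hcon
    push Not at hcon
    have h1 : ∀ v, 0 < f v → f v = 1 ∧ p v = v := by
      intro v hv
      obtain ⟨a, ha, h⟩ := hcon v
      have ha' := mem_pairs.1 ha
      have h2 := hc.own _ _ ha'
      rw [h] at h2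
      have h3 : Own G f p v v := by
        refine ⟨hv, ?_⟩
        rcases hp.own v hv with h4 | h4
        · simp [h4]
        · simp [h4.2]
      have h4 := hp.own_unique hG h2 h3
      rw [h4] at ha' h
      exact hc.self v a.2 ha' h
    have h5 : ∀ v, 0 < f v := by
      intro v
      obtain ⟨a, ha, h⟩ := hcon v
      have ha' := mem_pairs.1 ha
      have h2 := hc.level _ _ ha'
      have h3 := h1 a.1 (by omega)
      rw [h, h3.2] at h2
      have h4 : v = a.1 := hG.dist_eq_zero_iff.1 (by omega)
      rw [h4]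
      omega
    obtain ⟨v⟩ : Nonempty V := inferInstance
    obtain ⟨u, hu⟩ := exists_adj hG v
    have h6 := hp.other u v (h5 u) (h5 v) hu.ne
    rw [(h1 u (h5 u)).2, SimpleGraph.dist_eq_one_iff_adj.2 hu] at h6
    have := h5 v
    omega
  obtain ⟨z, hz⟩ := key
  have h1 := hc.card_le hG hp (pairs f) subset_rfl (univ.erase z)
    (fun a ha => mem_erase.2 ⟨hz a ha, mem_univ _⟩)
  rw [card_pairs, card_erase_of_mem (mem_univ z), card_univ] at h1
  have : 0 < Fintype.card V := Fintype.card_pos
  omega

theorem MinimalDominating.irredundant {f : V → ℕ} (hf : MinimalDominating G f) :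
    Irredundant G f := by
  classical
  refine ⟨hf.1, fun v hv => ?_⟩
  have h1 : ∀ w, (if w = v then f v - 1 else f w) ≤ f w := by
    intro w
    split_ifs with h
    · rw [h]; omega
    · exact le_rfl
  have h2 := hf.2.2 (fun w => if w = v then f v - 1 else f w)
    (fun w => ⟨(h1 w).trans (hf.1 w).1, le_trans (by exact_mod_cast h1 w) (hf.1 w).2⟩) h1
    (fun h => by have := congrFun h v; simp at this; omega)
  unfold Dominating at h2
  push Not at h2
  obtain ⟨u, hu⟩ := h2
  obtain ⟨w, hw1, hw2⟩ := hf.2.1 u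
  by_cases hwv : w = v
  · exact ⟨u, hwv ▸ hw2, hu⟩
  · exact absurd ⟨w, by simpa [hwv] using hw1, by simpa [hwv] using hw2⟩ hu

theorem isBroadcast_of_dist (hG : G.Connected) [Finite V] {f : V → ℕ}
    (h : ∀ v, ∃ u, f v ≤ G.dist v u) : IsBroadcast G f := by
  intro v
  obtain ⟨u, hu⟩ := h v
  have : Nonempty V := ⟨v⟩
  refine ⟨hu.trans (SimpleGraph.dist_le_diam (SimpleGraph.connected_iff_ediam_ne_top.1 hG)), ?_⟩
  refine le_trans ?_ (SimpleGraph.edist_le_eccent (v := u))
  rw [← (hG.preconnected v u).coe_dist_eq_edist]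
  exact_mod_cast hu

theorem bdd_irr (hG : G.Connected) [Fintype V] [Nontrivial V] :
    BddAbove {k | ∃ f, Irredundant G f ∧ ∑ v, f v = k} :=
  ⟨Fintype.card V, by rintro k ⟨f, hf, rfl⟩; exact (cost_lt hG hf).le⟩

theorem bdd_min (hG : G.Connected) [Fintype V] [Nontrivial V] :
    BddAbove {k | ∃ f, MinimalDominating G f ∧ ∑ v, f v = k} :=
  ⟨Fintype.card V, by rintro k ⟨f, hf, rfl⟩; exact (cost_lt hG hf.irredundant).le⟩

theorem upperIrredundant_lt (hG : G.Connected) [Fintype V] [Nontrivial V] :
    upperIrredundant G < Fintype.card V := by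
  rcases Set.eq_empty_or_nonempty {k | ∃ f, Irredundant G f ∧ ∑ v, f v = k} with h | h
  · rw [upperIrredundant, h]
    simpa using Fintype.card_pos
  · obtain ⟨f, hf, h2⟩ := Nat.sSup_mem h (bdd_irr hG)
    rw [upperIrredundant, ← h2]
    exact cost_lt hG hf

theorem colour_minimal (hG : G.Connected) [Fintype V] [Nontrivial V] (C : G.Coloring (Fin 2))
    (i : Fin 2) : MinimalDominating G (fun v => if C v = i then 1 else 0) := by
  refine ⟨isBroadcast_of_dist hG fun v => ?_, fun u => ?_, fun g _ hg hne hdom => ?_⟩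
  · obtain ⟨u, hu⟩ := exists_adj hG v
    refine ⟨u, ?_⟩
    rw [SimpleGraph.dist_eq_one_iff_adj.2 hu]
    split_ifs <;> omega
  · by_cases h : C u = i
    · exact ⟨u, by simp [h], by simp⟩
    · obtain ⟨w, hw⟩ := exists_adj hG u
      have h1 := C.valid hw
      have h2 : C w = i := by omega
      exact ⟨w, by simp [h2], by simp [h2, SimpleGraph.dist_eq_one_iff_adj.2 hw]⟩
  · obtain ⟨v, hv⟩ := Function.ne_iff.1 hne
    have h1 := hg v
    have h2 : C v = i := by
      by_contra h
      simp only [h, if_false] at hv h1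
      omega
    simp only [h2, if_true] at hv h1
    obtain ⟨w, hw1, hw2⟩ := hdom v
    have h3 := hg w
    have h4 : C w = i := by
      by_contra h
      simp only [h, if_false] at h3
      omega
    simp only [h4, if_true] at h3
    have h5 : G.dist v w = 0 ∨ G.dist v w = 1 := by omega
    rcases h5 with h5 | h5
    · have := hG.dist_eq_zero_iff.1 h5
      subst this
      omega
    · exact C.valid (SimpleGraph.dist_eq_one_iff_adj.1 h5) (h2.trans h4.symm)

theorem card_le_two_mul (hG : G.Connected) [Fintype V] [Nontrivial V] (hB : G.IsBipartite) :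
    Fintype.card V ≤ 2 * upperBroadcast G := by
  obtain ⟨C⟩ := hB
  have h : ∀ i, ∑ v, (if C v = i then 1 else 0) ≤ upperBroadcast G := fun i =>
    le_csSup (bdd_min hG) ⟨_, colour_minimal hG C i, rfl⟩
  have h0 := h 0
  have h1 := h 1
  have h2 : ∑ v, (if C v = 0 then 1 else 0) + ∑ v, (if C v = 1 then 1 else 0)
      = Fintype.card V := by
    rw [← Finset.sum_add_distrib, ← Finset.card_univ, Finset.card_eq_sum_ones]
    apply Finset.sum_congr rfl
    intro v _
    have : C v = 0 ∨ C v = 1 := by omega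
    rcases this with h | h <;> simp [h]
  omega

end Pool.Agent.Lib.MP_1867c4_co
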